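import Pool.Agent.Q60.MT.Final

/-!
# The Mumford-Tate conjecture for all powers of a variety is decided by one explicit power

Let `Y` be a smooth projective variety over a number field `L` embedded in the complex numbers, let
`l` be a prime number and let `b` be the sum of the Betti numbers of `Y`. Put
`N = (2 b) ^ ((2 b) ^ 3)`.

If the Galois representations on the `l`-adic cohomology of `Y ^ N` in even degrees are semisimple
and the Tate classes on `Y ^ N` are the linear combinations of the images of the Hodge classes, then
for all `n` the Galois representations on the cohomology of `Y ^ n` in all degrees are semisimple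
and the Tate classes on `Y ^ n` are the linear combinations of the images of the Hodge classes.

The theorem is proved for every Hodge theory `T`, every Weil cohomology theory `W'` with a
comparison isomorphism between `T` and `W'`, and every action of a group on `W'` with the
properties of the action of the Galois group on `l`-adic cohomology: continuity, and density of the
elements which act like geometric Frobenius elements (Chebotarev, Deligne, Katz-Messing).
-/

open CategoryTheory AlgebraicGeometry

universe u w

namespace Pool.Agent.Results.MP_6c781a_ag.EffectiveFiniteDetermination

open Pool.Agent.H914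
open Pool.Agent.Y121.AHS (HodgeTheory)
open Pool.Agent.Q55 (GaloisAction)
open Pool.Agent.Q60.MT (Artin MumfordTate IsPolarisable)
open Pool.Agent.Q60.TD (SemisimpleAt IsArithmetic power)

variable {k : Type u} [Field k] {𝒱 : VarClass k} {ops : CycleOps 𝒱} {T : HodgeTheory ops}
  {W' : WeilCohomology.{u, 0} ops} {Γ : Type w} [Group Γ] [TopologicalSpace Γ]
  [TopologicalSpace W'.K]

/-- **Effective finite determination of the Mumford-Tate conjecture.** `power Y n` is the product of
`n` copies of `Y`. -/
theorem result (C : Artin T.W W') (G : GaloisAction W' Γ) (Y : 𝒱.Obj) (hY : IsPolarisable T Y)
    (hG : IsArithmetic G Y) (b N : ℕ) (hb : Module.finrank W'.K (W'.H Y) = b)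
    (hN : N = (2 * b) ^ (2 * b) ^ 3) (hS : ∀ j, SemisimpleAt G (power Y N) (2 * j))
    (h : MumfordTate C G (power Y N)) (n : ℕ) :
    (∀ i, SemisimpleAt G (power Y n) i) ∧ MumfordTate C G (power Y n) := by
  subst hb hN
  exact (Pool.Agent.Q60.MT.determination hG hY (by omega) h hS (n - 1)).symm

end Pool.Agent.Results.MP_6c781a_ag.EffectiveFiniteDetermination
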