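import Pool.Agent.Q60.MV.Whole

/-!
# The Mumford-Tate conjecture for all powers of a variety is decided by its fourth power

Let `Y` be a smooth projective variety over a number field `L` embedded in the complex numbers and
let `l` be a prime number. Suppose that the centre of the algebra of the Hodge endomorphisms of
`H(Y)` is a product of totally real fields, and that the Galois representations on the `l`-adic
cohomology of `Y × Y` in even degrees are semisimple.

If the Tate classes on `Y ^ 4` are the linear combinations of the images of the Hodge classes, then
the same is true on `Y ^ n` for all `n`.

The proof: let `g` and `h` be the Lie algebras of the matrices which annihilate all Tate classes and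
all Hodge classes on the powers of `Y`. Both are contained in `End H(Y)`, so in the cohomology of
`Y × Y`, and the projectors onto them which commute with the Galois group (by semisimplicity) and
with the Mumford-Tate group (by the polarisation) are classes on `Y ^ 4`. By hypothesis both are
combinations of Hodge classes and Tate classes, so that `g` is an ideal of `h` with a complement
which commutes with `g`, so with all Hodge endomorphisms; the condition on the centre implies that
it is zero.
-/

open CategoryTheory AlgebraicGeometry

universe u w

namespace Pool.Agent.Results.MP_6c781a_ag.FourthPowerDecides

open Pool.Agent.H914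
open Pool.Agent.Y121.AHS (HodgeTheory)
open Pool.Agent.Q55 (GaloisAction)
open Pool.Agent.Q60.MT (Artin MumfordTate IsPolarisable)
open Pool.Agent.Q60.TD (SemisimpleAt power)
open Pool.Agent.Q60.FI (TotallyRealCentre)

variable {k : Type u} [Field k] {𝒱 : VarClass k} {ops : CycleOps 𝒱} {T : HodgeTheory ops}
  {W' : WeilCohomology.{u, 0} ops} {Γ : Type w} [Group Γ]

/-- **The fourth power decides the Mumford-Tate conjecture for all powers.** `power Y n` is the
product of `n` copies of `Y`. -/
theorem result (C : Artin T.W W') (G : GaloisAction W' Γ) (Y : 𝒱.Obj) (hY : IsPolarisable T Y)
    (hc : TotallyRealCentre T Y) (hS : ∀ j, SemisimpleAt G (power Y 2) (2 * j))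
    (h : MumfordTate C G (power Y 4)) (n : ℕ) : MumfordTate C G (power Y n) :=
  Pool.Agent.Q60.MV.fourth_mt hY hc hS h (n - 1)

end Pool.Agent.Results.MP_6c781a_ag.FourthPowerDecides
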