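import Pool.Agent.Q28.ZO.TFin

/-!
# Zero-one laws for Hodge classes and Tate classes and the Mumford-Tate conjecture

Let `X` be a smooth projective variety over a number field in `ℂ` and let `l` be a prime number. A
class on a power of `X` in rational singular cohomology is a rational Tate class if its image in
`l`-adic cohomology is a Tate class, and an HT class if it is both a Hodge class and a rational Tate
class. We prove unconditionally:

* either the images of all Hodge classes on all powers of `X` are Tate classes, or the HT classes
  are asymptotically zero percent of the Hodge classes on `X^n`;
* either all rational Tate classes on all powers of `X` are Hodge classes, or the HT classes are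
  asymptotically zero percent of the rational Tate classes on `X^n`;
* the Mumford-Tate conjecture for all powers of `X` (the Tate classes on `X^n` are the linear
  combinations over `ℚ_l` of the Hodge classes, for all `n`) holds if and only if the HT classes are
  neither asymptotically zero percent of the Hodge classes nor of the Tate classes on `X^n`.

So each of the two equalities in the Mumford-Tate conjecture is either true for all powers or fails
as badly as possible on high powers. For example let `X` be an abelian variety. Then all Hodge
classes are HT classes (Deligne), and the theorem says that the Mumford-Tate conjecture for `X` is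
true if and only if the dimension of the space of the Hodge classes on `X^n`, divided by the dimension
of the space of the Tate classes, does not tend to zero for `n → ∞`.

No semisimplicity is assumed. In the proof of the first law the Galois action is studied through the
matrix coefficients on rational classes, as functions on the Galois group modulo the functions which
vanish on a subgroup of finite index. If the quotient does not tend to zero, then all Hodge classes
are generated by those on one power under correspondences given by HT classes, so that the matrix
coefficients of all external powers of one Hodge class lie in a fixed space of finite dimension; hence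
they are algebraic over `ℚ_l`, so they have finitely many values on a subgroup of finite index, and
the orbit of the class is finite.
-/

open CategoryTheory AlgebraicGeometry

universe u w

namespace Pool.Agent.Results.MP_6c781a_ag.ZeroOneLaw

open Pool.Agent.H914
open Pool.Agent.Y121.AHS (HodgeTheory IsHodge RatioToZero)
open Pool.Agent.Y133.Half (pw)
open Pool.Agent.Q55 (GaloisAction IsTate)
open Pool.Agent.Q57.DS (dimP)
open Pool.Agent.Q60.MT (Artin MumfordTate)
open Pool.Agent.Q28.ZO

variable {k : Type u} [Field k] {𝒱 : VarClass k} {ops : CycleOps 𝒱}

/-- **Zero-one laws and the Mumford-Tate conjecture.** `pw X n` is the product of `n + 1` copies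
of `X`. -/
theorem result {T : HodgeTheory ops} {W' : WeilCohomology.{u, 0} ops} {Γ : Type w} [Group Γ]
    (C : Artin T.W W') (hC : RespectsCycles C) (hK : Nonempty (W'.K →+* ℂ))
    (G : GaloisAction W' Γ) (X : 𝒱.Obj) [Nontrivial (T.W.H X)] :
    ((∀ n, HodgeAreTate C G (pw X n)) ∨
      RatioToZero (fun n => dimP (IsHT C G) (pw X n)) fun n => dimP (IsHodge T) (pw X n)) ∧
    ((∀ n, RatTateAreHodge C G (pw X n)) ∨
      RatioToZero (fun n => dimP (IsHT C G) (pw X n)) fun n => dimP (IsRatTate C G) (pw X n)) ∧
    ((∀ n, MumfordTate C G (pw X n)) ↔
      ¬ RatioToZero (fun n => dimP (IsHT C G) (pw X n)) (fun n => dimP (IsHodge T) (pw X n)) ∧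
        ¬ RatioToZero (fun n => dimP (IsHT C G) (pw X n)) fun n => dimP (IsTate G) (pw X n)) ∧
    ((∀ n, HodgeAreTate C G (pw X n)) → ((∀ n, MumfordTate C G (pw X n)) ↔
      ¬ RatioToZero (fun n => dimP (IsHodge T) (pw X n)) fun n => dimP (IsTate G) (pw X n))) := by
  obtain ⟨τ⟩ := hK
  exact ⟨Pool.Agent.Q28.ZO.h_law hC G X, Pool.Agent.Q28.ZO.r_law hC G X,
    Pool.Agent.Q28.ZO.mt_iff hC G X τ, Pool.Agent.Q28.ZO.mt_iff_of hC G X τ⟩

end Pool.Agent.Results.MP_6c781a_ag.ZeroOneLaw
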